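import Pool.Agent.H51.AS.ExpTwo
import Pool.Agent.H51.AS.Zero

set_option autoImplicit false

/-! # MP_58e087_nt: an alternative between linear independence and a discrete approximation spectrum of `π` -/

namespace Pool.Agent.Results.MP_58e087_nt.ApproximationSpectrum

open Pool.Agent.H51.AS

theorem extract (θ : ℝ) (h : ¬ LinearIndependent ℚ ![1, θ, Real.pi, Real.pi * θ]) :
    ∃ a b c d : ℤ, ¬(a = 0 ∧ b = 0 ∧ c = 0 ∧ d = 0) ∧
      (a : ℝ) + b * θ + c * Real.pi + d * (Real.pi * θ) = 0 := by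
  rw [← LinearIndependent.iff_fractionRing ℤ ℚ, Fintype.linearIndependent_iff] at h
  push Not at h
  obtain ⟨g, hg, i, hi⟩ := h
  have hsum : (g 0 : ℝ) + g 1 * θ + g 2 * Real.pi + g 3 * (Real.pi * θ) = 0 := by
    rw [Fin.sum_univ_four] at hg
    simpa using hg
  refine ⟨g 0, g 1, g 2, g 3, ?_, hsum⟩
  rintro ⟨h0, h1, h2, h3⟩
  fin_cases i
  · exact hi h0
  · exact hi h1
  · exact hi h2
  · exact hi h3

/-- from a relation for `exp (2 / k)` to a relation for `coth (1 / k)` -/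
theorem convert (k : ℕ) (hk : 1 ≤ k) (a b c d : ℤ) (hne : ¬(a = 0 ∧ b = 0 ∧ c = 0 ∧ d = 0))
    (hrel : (a : ℝ) + b * Real.exp (2 / (k : ℝ)) + c * Real.pi +
      d * (Real.pi * Real.exp (2 / (k : ℝ))) = 0) :
    ∃ a' b' c' d' : ℤ, ¬(a' = 0 ∧ b' = 0 ∧ c' = 0 ∧ d' = 0) ∧
      (a' : ℝ) + b' * ((Real.exp (2 / (k : ℝ)) + 1) / (Real.exp (2 / (k : ℝ)) - 1)) + c' * Real.pi +
        d' * (Real.pi * ((Real.exp (2 / (k : ℝ)) + 1) / (Real.exp (2 / (k : ℝ)) - 1))) = 0 := by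
  have hx := exp_gt k hk
  set x := Real.exp (2 / (k : ℝ)) with hxdef
  refine ⟨b - a, a + b, d - c, c + d, ?_, ?_⟩
  · rintro ⟨h0, h1, h2, h3⟩
    apply hne
    refine ⟨?_, ?_, ?_, ?_⟩ <;> omega
  · push_cast
    field_simp
    linear_combination 2 * hrel

/-- The alternative. -/
theorem result :
    ((∀ θ : ℝ, Fast θ → LinearIndependent ℚ ![1, θ, Real.pi, Real.pi * θ]) ∧
      ∀ k : ℕ, 1 ≤ k →
        LinearIndependent ℚ
          ![1, Real.exp (2 / (k : ℝ)), Real.pi, Real.pi * Real.exp (2 / (k : ℝ))]) ∨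
    (ApproxLimit Real.pi 0 ∧
      ∃ D : ℕ, 1 ≤ D ∧ ∀ l : ℝ, ApproxLimit Real.pi l → ∃ m : ℕ, l = m / D) := by
  by_cases h : ∃ θ : ℝ, Fast θ ∧ ∃ a b c d : ℤ, ¬(a = 0 ∧ b = 0 ∧ c = 0 ∧ d = 0) ∧
      (a : ℝ) + b * θ + c * Real.pi + d * (Real.pi * θ) = 0
  · right
    obtain ⟨θ, hF, a, b, c, d, hne, hrel⟩ := h
    exact ⟨zero_limit θ Real.pi hF irrational_pi a b c d hne hrel,
      transfer θ Real.pi hF irrational_pi a b c d hne hrel⟩
  · left
    push Not at h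
    constructor
    · intro θ hF
      by_contra hcon
      obtain ⟨a, b, c, d, hne, hrel⟩ := extract θ hcon
      exact h θ hF a b c d (fun h0 => fun hb hc hd => hne ⟨h0, hb, hc, hd⟩) hrel
    · intro k hk
      by_contra hcon
      obtain ⟨a, b, c, d, hne, hrel⟩ := extract _ hcon
      obtain ⟨a', b', c', d', hne', hrel'⟩ := convert k hk a b c d hne hrel
      exact h _ (fast_coth k hk) a' b' c' d' (fun h0 => fun hb hc hd => hne' ⟨h0, hb, hc, hd⟩) hrel'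

end Pool.Agent.Results.MP_58e087_nt.ApproximationSpectrum
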