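import Mathlib
import Pool.Agent.H11.NZ.Lower

set_option autoImplicit false

/-!
# Linear independence of `1, e, π`, or many near zeros of the sine at the integers

Let `Z(ε, N)` be the number of the integers `1 ≤ n ≤ N` with `n |sin n| ≤ ε`. For almost all real
numbers in place of `π` the corresponding number is asymptotic to a constant multiple of `log N`
(Khinchin, Schmidt). We show: if `1, e, π` are linearly dependent over `ℚ` (more generally, if
`1, e^(2/k), π, π e^(2/k)` are, for some `k ≥ 1`) then `Z(ε, N)` has the exact order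
`(log N / log log N) ^ (3/2)` for every `ε > 0`. So `1, e, π` are linearly independent if for some
`ε > 0` the near zeros of the sine are less frequent along a sequence of `N`, in particular if
`Z(ε, N) = O(log N)`.

Lower bound: the relation turns the convergents of `e^(2/k)`, with error `≍ 1 / (n A_n)` at the
denominator `A_n = n^(n + o(n))`, into integers `P_n` with `P_n |sin P_n| ≪ 1 / n`, and then
`j P_n`, `j ≤ c √n`, are near zeros too. Upper bound: a near zero is `g` times the numerator of one
of the `O(log N / log log N)` good rational approximations of `π` (starting library), and the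
multiplicity `g` is `O(√(log N / log log N))` by the lower bound for `|π - p / q|` (starting library).
-/

namespace Pool.Agent.Results.MP_58e087_nt.NearZerosOfSine

open Filter

/-- the number of the integers `1 ≤ n ≤ N` with `n |sin n| ≤ ε` -/
noncomputable def nearZeros (ε : ℝ) (N : ℕ) : ℕ :=
  ((Finset.Icc 1 N).filter fun n : ℕ => (n : ℝ) * |Real.sin n| ≤ ε).card

/-- Either `1, e^(2/k), π, π e^(2/k)` are linearly independent over `ℚ` for every `k ≥ 1` (for `k = 2`
these are `1, e, π, π e`), or for every `ε > 0` the number of the `n ≤ N` with `n |sin n| ≤ ε` lies between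
two positive constant multiples of `(log N / log log N) ^ (3/2)` for all large `N`. -/
theorem result :
    (∀ k : ℕ, 1 ≤ k → LinearIndependent ℚ
      ![(1 : ℝ), Real.exp (2 / (k : ℝ)), Real.pi, Real.pi * Real.exp (2 / (k : ℝ))]) ∨
    ∀ ε : ℝ, 0 < ε → ∃ c C : ℝ, 0 < c ∧ 0 < C ∧ ∀ᶠ N : ℕ in atTop,
      c * (Real.log N / Real.log (Real.log N)) ^ (3 / 2 : ℝ) ≤ nearZeros ε N ∧
        (nearZeros ε N : ℝ) ≤ C * (Real.log N / Real.log (Real.log N)) ^ (3 / 2 : ℝ) := by
  by_cases h : ∀ k : ℕ, 1 ≤ k → LinearIndependent ℚ
      ![(1 : ℝ), Real.exp (2 / (k : ℝ)), Real.pi, Real.pi * Real.exp (2 / (k : ℝ))]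
  · exact Or.inl h
  · right
    push Not at h
    obtain ⟨k, hk, hk'⟩ := h
    exact (Pool.Agent.H11.NZ.dichotomy k hk).resolve_left hk'

end Pool.Agent.Results.MP_58e087_nt.NearZerosOfSine
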